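import Pool.Agent.K3h5.FF.Stm

/-!
# Comparison of the correlations at neighbouring places
-/

set_option autoImplicit false

open Finset

namespace Pool.Agent.K3h33.FF

open Pool.Agent.K3h5.FF

open Classical in
/-- The total weight of the permutations with given values. -/
noncomputable def W {n l : ℕ} (w : Equiv.Perm (Fin n) → ℝ) (p a : Fin l → Fin n) : ℝ :=
  ∑ π, if ∀ i, π (p i) = a i then w π else 0

lemma pr_eq_W {n l : ℕ} (w : Equiv.Perm (Fin n) → ℝ) (p a : Fin l → Fin n) :
    pr w {π | ∀ i, π (p i) = a i} = W w p a := by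
  unfold pr W
  refine Finset.sum_congr rfl fun π _ => ?_
  by_cases h : ∀ i, π (p i) = a i
  · exact (if_pos h).trans (if_pos h).symm
  · exact (if_neg h).trans (if_neg h).symm

lemma W_nonneg {n l : ℕ} {w : Equiv.Perm (Fin n) → ℝ} (hw : ∀ π, 0 ≤ w π) (p a : Fin l → Fin n) :
    0 ≤ W w p a := by
  unfold W
  refine Finset.sum_nonneg fun π _ => ?_
  split_ifs
  · exact hw π
  · exact le_rfl

lemma W_inv {n l : ℕ} (w : Equiv.Perm (Fin n) → ℝ) (p a : Fin l → Fin n) :
    W w p a = W (fun π => w π⁻¹) a p := by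
  classical
  unfold W
  rw [← Equiv.sum_comp (Equiv.inv (Equiv.Perm (Fin n)))]
  refine Finset.sum_congr rfl fun π _ => ?_
  have h1 : (∀ i, (Equiv.inv (Equiv.Perm (Fin n)) π) (p i) = a i) ↔ ∀ i, π (a i) = p i := by
    refine forall_congr' fun i => ?_
    change π⁻¹ (p i) = a i ↔ _
    rw [Equiv.Perm.inv_eq_iff_eq]
    exact eq_comm
  rw [if_congr h1 rfl rfl]
  rfl

/-- One position is changed. -/
lemma step {n l D : ℕ} {w : Equiv.Perm (Fin n) → ℝ} {K : ℝ}
    (h : ∀ π (x y : Fin n), |(x.val : ℤ) - y.val| ≤ D → w (π * Equiv.swap x y) ≤ K * w π)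
    (p p' a : Fin l → Fin n) (j : Fin l) (hpp : ∀ i, i ≠ j → p' i = p i)
    (h1 : ∀ i, i ≠ j → p i ≠ p j) (h2 : ∀ i, i ≠ j → p i ≠ p' j)
    (hD : |((p j).val : ℤ) - (p' j).val| ≤ D) : W w p' a ≤ K * W w p a := by
  classical
  unfold W
  rw [← Equiv.sum_comp (Equiv.mulRight (Equiv.swap (p j) (p' j))), Finset.mul_sum]
  refine Finset.sum_le_sum fun π _ => ?_
  have h3 : (∀ i, (Equiv.mulRight (Equiv.swap (p j) (p' j)) π) (p' i) = a i) ↔
      ∀ i, π (p i) = a i := by
    refine forall_congr' fun i => ?_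
    change π (Equiv.swap (p j) (p' j) (p' i)) = a i ↔ _
    by_cases hi : i = j
    · rw [hi, Equiv.swap_apply_right]
    · rw [hpp i hi, Equiv.swap_apply_of_ne_of_ne (h1 i hi) (h2 i hi)]
  rw [if_congr h3 rfl rfl]
  split_ifs
  · exact h π _ _ hD
  · rw [mul_zero]

/-- All positions are changed. -/
lemma chain {n l D : ℕ} {w : Equiv.Perm (Fin n) → ℝ} {K : ℝ} (hK : 1 ≤ K)
    (h : ∀ π (x y : Fin n), |(x.val : ℤ) - y.val| ≤ D → w (π * Equiv.swap x y) ≤ K * w π)
    (p p' a : Fin l → Fin n) (hp : Function.Injective p) (hp' : Function.Injective p')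
    (hne : ∀ i i', p i ≠ p' i') (hD : ∀ i, |((p' i).val : ℤ) - (p i).val| ≤ D) :
    W w p a ≤ K ^ l * W w p' a ∧ W w p' a ≤ K ^ l * W w p a := by
  have hK0 : 0 ≤ K := by linarith
  have key : ∀ j : ℕ, j ≤ l → W w p a ≤ K ^ j * W w (fun i => if i.val < j then p' i else p i) a ∧
      W w (fun i => if i.val < j then p' i else p i) a ≤ K ^ j * W w p a := by
    intro j
    induction j with
    | zero =>
      intro _
      simp
    | succ j ih =>
      intro hj
      obtain ⟨ih1, ih2⟩ := ih (by omega)
      set q : Fin l → Fin n := fun i => if i.val < j then p' i else p i with hq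
      set q' : Fin l → Fin n := fun i => if i.val < j + 1 then p' i else p i with hq'
      let jj : Fin l := ⟨j, by omega⟩
      have e1 : q jj = p jj := by simp [hq, jj]
      have e2 : q' jj = p' jj := by simp [hq', jj]
      have e3 : ∀ i, i ≠ jj → q' i = q i := by
        intro i hi
        have hi' : i.val ≠ j := fun h => hi (Fin.ext h)
        have h4 : i.val < j + 1 ↔ i.val < j := by omega
        simp only [hq, hq', h4]
      have e4 : ∀ i, i ≠ jj → q i ≠ p jj := by
        intro i hi
        simp only [hq]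
        split_ifs
        · exact (hne jj i).symm
        · exact fun h => hi (hp h)
      have e5 : ∀ i, i ≠ jj → q i ≠ p' jj := by
        intro i hi
        simp only [hq]
        split_ifs
        · exact fun h => hi (hp' h)
        · exact hne i jj
      have s1 : W w q' a ≤ K * W w q a := by
        refine step h q q' a jj e3 (fun i hi => by rw [e1]; exact e4 i hi)
          (fun i hi => by rw [e2]; exact e5 i hi) ?_
        rw [e1, e2, abs_sub_comm]
        exact hD jj
      have s2 : W w q a ≤ K * W w q' a := by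
        refine step h q' q a jj (fun i hi => (e3 i hi).symm)
          (fun i hi => by rw [e2, e3 i hi]; exact e5 i hi)
          (fun i hi => by rw [e1, e3 i hi]; exact e4 i hi) ?_
        rw [e1, e2]
        exact hD jj
      constructor
      · calc W w p a ≤ K ^ j * W w q a := ih1
          _ ≤ K ^ j * (K * W w q' a) := mul_le_mul_of_nonneg_left s2 (pow_nonneg hK0 j)
          _ = K ^ (j + 1) * W w q' a := by ring
      · calc W w q' a ≤ K * W w q a := s1
          _ ≤ K * (K ^ j * W w p a) := mul_le_mul_of_nonneg_left ih2 hK0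
          _ = K ^ (j + 1) * W w p a := by ring
  have h5 := key l le_rfl
  have e : (fun i : Fin l => if i.val < l then p' i else p i) = p' := by
    funext i
    rw [if_pos i.2]
  rw [e] at h5
  exact h5

/-- The sum over all neighbouring places. -/
lemma sum_W {n l : ℕ} (w : Equiv.Perm (Fin n) → ℝ) (I J : Fin l → Finset (Fin n)) :
    ∑ p' ∈ Fintype.piFinset I, ∑ a' ∈ Fintype.piFinset J, W w p' a' =
      ∑ π, w π * ∏ i, (NN (I i) (J i) π : ℝ) := by
  classical
  unfold W
  have h1 : ∀ π : Equiv.Perm (Fin n), ∑ p' ∈ Fintype.piFinset I, ∑ a' ∈ Fintype.piFinset J,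
      (if ∀ i, π (p' i) = a' i then (1 : ℝ) else 0) = ∏ i, (NN (I i) (J i) π : ℝ) := by
    intro π
    have e1 : ∀ p' : Fin l → Fin n, ∑ a' ∈ Fintype.piFinset J,
        (if ∀ i, π (p' i) = a' i then (1 : ℝ) else 0) =
        ∏ i, if π (p' i) ∈ J i then (1 : ℝ) else 0 := by
      intro p'
      have e2 : ∀ i, (if π (p' i) ∈ J i then (1 : ℝ) else 0) =
          ∑ y ∈ J i, if π (p' i) = y then (1 : ℝ) else 0 := by
        intro i
        rw [Finset.sum_ite_eq]
      rw [Finset.prod_congr rfl fun i _ => e2 i, Finset.prod_univ_sum]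
      refine Finset.sum_congr rfl fun a' _ => ?_
      rw [Finset.prod_ite_zero]
      simp
    rw [Finset.sum_congr rfl fun p' _ => e1 p']
    have e3 : ∀ i, (NN (I i) (J i) π : ℝ) = ∑ x ∈ I i, if π x ∈ J i then (1 : ℝ) else 0 := by
      intro i
      unfold NN
      rw [Finset.sum_ite]
      simp
    rw [Finset.prod_congr rfl fun i _ => e3 i, Finset.prod_univ_sum]
  have h2 : ∀ π : Equiv.Perm (Fin n), w π * ∏ i, (NN (I i) (J i) π : ℝ) =
      ∑ p' ∈ Fintype.piFinset I, ∑ a' ∈ Fintype.piFinset J,
      (if ∀ i, π (p' i) = a' i then w π else 0) := by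
    intro π
    rw [← h1 π, Finset.mul_sum]
    refine Finset.sum_congr rfl fun p' _ => ?_
    rw [Finset.mul_sum]
    refine Finset.sum_congr rfl fun a' _ => ?_
    rw [mul_ite, mul_one, mul_zero]
  rw [Finset.sum_congr rfl fun π _ => h2 π]
  exact Eq.trans (Finset.sum_congr rfl fun p' _ => Finset.sum_comm) Finset.sum_comm

/-- SAND. Comparison of the correlations at neighbouring places. -/
theorem t_SAND : S_SAND := by
  intro n D w K hK hw hsw l p a I J hp ha hI hJ hpI haJ hID hJD
  have hK0 : 0 ≤ K := by linarith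
  rw [pr_eq_W]
  -- comparison of single terms
  have key : ∀ p' ∈ Fintype.piFinset I, ∀ a' ∈ Fintype.piFinset J,
      W w p a ≤ K ^ (2 * l) * W w p' a' ∧ W w p' a' ≤ K ^ (2 * l) * W w p a := by
    intro p' hp' a' ha'
    rw [Fintype.mem_piFinset] at hp' ha'
    have hpi : Function.Injective p' := by
      intro i i' h
      by_contra hne
      have h1 := hI i i' hne
      rw [Finset.disjoint_left] at h1
      exact h1 (hp' i) (by rw [h]; exact hp' i')
    have hai : Function.Injective a' := by
      intro i i' h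
      by_contra hne
      have h1 := hJ i i' hne
      rw [Finset.disjoint_left] at h1
      exact h1 (ha' i) (by rw [h]; exact ha' i')
    have c1 := chain (D := D) hK (fun π x y hxy => (hsw π x y hxy).2) p p' a hp hpi
      (fun i i' h => hpI i i' (by rw [h]; exact hp' i')) (fun i => hID i _ (hp' i))
    have c2 := chain (D := D) (w := fun π => w π⁻¹) hK (fun π x y hxy => by
      have h1 := (hsw π⁻¹ x y hxy).1
      have h2 : (π * Equiv.swap x y)⁻¹ = Equiv.swap x y * π⁻¹ := by
        rw [mul_inv_rev, Equiv.swap_inv]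
      rw [h2]
      exact h1) a a' p' ha hai
      (fun i i' h => haJ i i' (by rw [h]; exact ha' i')) (fun i => hJD i _ (ha' i))
    rw [← W_inv, ← W_inv] at c2
    have hKl := pow_nonneg hK0 l
    constructor
    · calc W w p a ≤ K ^ l * W w p' a := c1.1
        _ ≤ K ^ l * (K ^ l * W w p' a') := mul_le_mul_of_nonneg_left c2.1 hKl
        _ = K ^ (2 * l) * W w p' a' := by ring
    · calc W w p' a' ≤ K ^ l * W w p' a := c2.2
        _ ≤ K ^ l * (K ^ l * W w p a) := mul_le_mul_of_nonneg_left c1.2 hKl
        _ = K ^ (2 * l) * W w p a := by ring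
  have hcard : ∏ i, ((I i).card * (J i).card : ℝ) =
      ((Fintype.piFinset I).card : ℝ) * ((Fintype.piFinset J).card : ℝ) := by
    rw [Finset.prod_mul_distrib, Fintype.card_piFinset, Fintype.card_piFinset]
    push_cast
    rfl
  have hconst : W w p a * (((Fintype.piFinset I).card : ℝ) * ((Fintype.piFinset J).card : ℝ)) =
      ∑ p' ∈ Fintype.piFinset I, ∑ a' ∈ Fintype.piFinset J, W w p a := by
    rw [Finset.sum_const, Finset.sum_const, nsmul_eq_mul, nsmul_eq_mul]
    ring
  rw [hcard, hconst, ← sum_W]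
  constructor
  · rw [Finset.mul_sum]
    refine Finset.sum_le_sum fun p' hp' => ?_
    rw [Finset.mul_sum]
    exact Finset.sum_le_sum fun a' ha' => (key p' hp' a' ha').1
  · rw [Finset.mul_sum]
    refine Finset.sum_le_sum fun p' hp' => ?_
    rw [Finset.mul_sum]
    exact Finset.sum_le_sum fun a' ha' => (key p' hp' a' ha').2

end Pool.Agent.K3h33.FF
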